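import Pool.Agent.MP_5168f5_an.H17F.Defs

/-! Events, the Gibbs inequality for graphs, and dependent random choice. -/

namespace Pool.Agent.MP_5168f5_an.H39F

open H19 H17S H17F

variable {Ω Ω' α β : Type}

theorem E_swap (P : FP Ω) (Q : FP Ω') (F : Ω → Ω' → ℝ) :
    P.E (fun a => Q.E fun b => F a b) = Q.E fun b => P.E fun a => F a b := by
  simp only [FP.E, Finset.mul_sum]
  rw [Finset.sum_comm]
  exact Finset.sum_congr rfl fun _ _ => Finset.sum_congr rfl fun _ _ => by ring

theorem pb_nonneg (P : FP Ω) (E : Ω → Prop) : 0 ≤ pb P E :=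
  P.E_nonneg fun ω _ => by split_ifs <;> norm_num

theorem pb_le_one (P : FP Ω) (E : Ω → Prop) : pb P E ≤ 1 :=
  (P.E_mono fun ω _ => by split_ifs <;> norm_num).trans (P.E_const 1).le

theorem pb_mono (P : FP Ω) {E F : Ω → Prop} (h : ∀ ω ∈ P.S, E ω → F ω) : pb P E ≤ pb P F :=
  P.E_mono fun ω hω => by
    by_cases h1 : E ω
    · simp [h1, h ω hω h1]
    · simp only [h1, if_false]; split_ifs <;> norm_num

theorem pb_union (P : FP Ω) {E A B : Ω → Prop} (h : ∀ ω ∈ P.S, E ω → A ω ∨ B ω) :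
    pb P E ≤ pb P A + pb P B := by
  unfold pb
  rw [← P.E_add]
  refine P.E_mono fun ω hω => ?_
  by_cases h1 : E ω
  · rcases h ω hω h1 with h2 | h2
    · simp only [h1, h2, if_true]; split_ifs <;> norm_num
    · simp only [h1, h2, if_true]; split_ifs <;> norm_num
  · simp only [h1, if_false]; split_ifs <;> norm_num

theorem pb_ex (P : FP Ω) {E : Ω → Prop} (h : 0 < pb P E) : ∃ ω ∈ P.S, E ω := by
  by_contra hn
  push Not at hn
  have : pb P E = 0 := (P.E_congr fun ω hω => if_neg (hn ω hω)).trans (P.E_const 0)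
  linarith

theorem ex_ge (P : FP Ω) (F : Ω → ℝ) : ∃ ω ∈ P.S, P.E F ≤ F ω := by
  have hne : P.S.Nonempty := by
    rcases P.S.eq_empty_or_nonempty with h | h
    · have := P.sum_one
      rw [h] at this
      simp at this
    · exact h
  obtain ⟨a, ha, hmax⟩ := Finset.exists_max_image P.S F hne
  exact ⟨a, ha, (P.E_mono hmax).trans (P.E_const _).le⟩

/-- Probability that `X` takes the value `x`. -/
noncomputable def pv (P : FP Ω) (X : Ω → α) (x : α) : ℝ := pb P fun b => X b = x

theorem pv_eq (P : FP Ω) (X : Ω → α) (a : Ω) : pv P X (X a) = P.pr (Setoid.ker X) a :=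
  P.E_congr fun _ _ => rfl

theorem pv_pos (P : FP Ω) (X : Ω → α) {a : Ω} (ha : a ∈ P.S) : 0 < pv P X (X a) := by
  rw [pv_eq]; exact P.pr_pos _ ha

theorem hh_eq (P : FP Ω) (X : Ω → α) : hh P X = P.E fun a => -Real.log (pv P X (X a)) := by
  simp only [pv_eq]; rfl

/-- An event on which `X` takes few light values is unlikely. -/
theorem count (P : FP Ω) (X : Ω → α) (E : Ω → Prop) (T : Finset α) {m : ℝ} (hm : 0 ≤ m)
    (h : ∀ ω ∈ P.S, E ω → X ω ∈ T ∧ pv P X (X ω) ≤ m) : pb P E ≤ T.card * m := by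
  classical
  have h1 : pb P E ≤ P.E fun ω => ∑ t ∈ T.filter (fun t => pv P X t ≤ m),
      if X ω = t then (1 : ℝ) else 0 := by
    refine P.E_mono fun ω hω => ?_
    rw [Finset.sum_ite_eq]
    by_cases h1 : E ω
    · simp [h1, h ω hω h1]
    · simp only [h1, if_false]; split_ifs <;> norm_num
  rw [P.E_sum] at h1
  refine h1.trans ?_
  have h2 : ∀ t ∈ T.filter (fun t => pv P X t ≤ m),
      (P.E fun ω => if X ω = t then (1 : ℝ) else 0) ≤ m := by
    intro t ht
    refine le_trans (le_of_eq ?_) (Finset.mem_filter.1 ht).2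
    exact P.E_congr fun ω _ => by by_cases h : X ω = t <;> simp [h]
  refine (Finset.sum_le_card_nsmul _ _ _ h2).trans ?_
  rw [nsmul_eq_mul]
  exact mul_le_mul_of_nonneg_right (by exact_mod_cast Finset.card_filter_le _ _) hm

theorem inv_pv_le (P : FP Ω) (X : Ω → α) (T : Finset α) (hT : ∀ ω ∈ P.S, X ω ∈ T) :
    P.E (fun ω => 1 / pv P X (X ω)) ≤ T.card := by
  classical
  have h1 : P.E (fun ω => 1 / pv P X (X ω)) =
      P.E fun ω => ∑ t ∈ T, if X ω = t then 1 / P.pr (Setoid.ker X) ω else 0 :=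
    P.E_congr fun ω hω => by rw [Finset.sum_ite_eq, if_pos (hT ω hω), pv_eq]
  rw [h1, P.E_sum]
  have h2 : ∀ t ∈ T, (P.E fun ω => if X ω = t then 1 / P.pr (Setoid.ker X) ω else 0) ≤ 1 := by
    intro t _
    refine le_trans (le_of_eq ?_) (P.class_sum (Setoid.ker X) (fun ω => X ω = t)
      fun x _ y _ h1 h2 => h1.trans h2.symm)
    exact P.E_congr fun ω _ => by by_cases h : X ω = t <;> simp [h]
  simpa using Finset.sum_le_card_nsmul _ _ _ h2

/-- A variable of almost full entropy rarely takes heavy values. -/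
theorem light (P : FP Ω) (X : Ω → α) (T : Finset α) {B m : ℝ} (hT : ∀ ω ∈ P.S, X ω ∈ T)
    (hB : (T.card : ℝ) ≤ B) (hm : 0 < m) :
    hh P X ≤ lg + Real.log B - pb P (fun ω => m < pv P X (X ω)) * Real.log (m * B) := by
  classical
  have hB0 : 0 < B := by
    obtain ⟨a, ha, -⟩ := ex_ge P fun _ => 0
    have : 0 < T.card := Finset.card_pos.2 ⟨_, hT a ha⟩
    exact lt_of_lt_of_le (by exact_mod_cast this) hB
  have key := P.gibbs (Setoid.ker X) (fun ω => if m < pv P X (X ω) then m / 2 else 1 / (2 * B))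
    (fun ω _ => by split_ifs <;> positivity) (by
      have h1 : P.E (fun ω => (if m < pv P X (X ω) then m / 2 else 1 / (2 * B)) /
          P.pr (Setoid.ker X) ω) ≤ P.E fun ω => 1 / 2 + 1 / (2 * B) * (1 / pv P X (X ω)) := by
        refine P.E_mono fun ω hω => ?_
        have hp := pv_pos P X hω
        rw [← pv_eq]
        split_ifs with h
        · have h2 : m / 2 / pv P X (X ω) ≤ 1 / 2 := by
            rw [div_le_iff₀ hp]; linarith
          have h3 : 0 ≤ 1 / (2 * B) * (1 / pv P X (X ω)) := by positivity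
          linarith
        · have : 1 / (2 * B) / pv P X (X ω) = 1 / (2 * B) * (1 / pv P X (X ω)) := by ring
          linarith
      rw [P.E_add, P.E_const, P.E_mul] at h1
      have h2 := (inv_pv_le P X T hT).trans hB
      have h3 : 1 / (2 * B) * P.E (fun ω => 1 / pv P X (X ω)) ≤ 1 / (2 * B) * B :=
        mul_le_mul_of_nonneg_left h2 (by positivity)
      have h4 : 1 / (2 * B) * B = 1 / 2 := by field_simp
      linarith)
  refine le_trans key (le_of_eq ?_)
  rw [mul_comm (pb _ _)]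
  unfold pb
  rw [← P.E_mul, ← P.E_const (lg + Real.log B), ← P.E_sub]
  refine P.E_congr fun ω _ => ?_
  unfold lg
  split_ifs with h
  · rw [Real.log_div hm.ne' two_ne_zero, Real.log_mul hm.ne' hB0.ne']; ring
  · rw [one_div, Real.log_inv, Real.log_mul two_ne_zero hB0.ne']; ring

/-- The variational lower bound for mutual information. -/
theorem gibbs2 (P : FP Ω) (d : Ω → α) (w : Ω → β) (h : α → β → ℝ) (h0 : ∀ x y, 0 < h x y)
    (h1 : P.E (fun a => P.E fun b => h (d a) (w b)) ≤ 1) :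
    P.E (fun ω => Real.log (h (d ω) (w ω))) ≤ hh P d - ch P d w := by
  classical
  have key := P.gibbs (Setoid.ker fun ω => (d ω, w ω))
    (fun ω => pv P d (d ω) * pv P w (w ω) * h (d ω) (w ω))
    (fun ω hω => mul_pos (mul_pos (pv_pos P d hω) (pv_pos P w hω)) (h0 _ _)) (by
      have e : P.E (fun ω => pv P d (d ω) * pv P w (w ω) * h (d ω) (w ω) /
          P.pr (Setoid.ker fun ω => (d ω, w ω)) ω) = P.E fun ω => P.E fun a => P.E fun b =>
            h (d a) (w b) * if (d ω, w ω) = (d a, w b) then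
              1 / P.pr (Setoid.ker fun ω => (d ω, w ω)) ω else 0 := by
        refine P.E_congr fun ω _ => ?_
        have e1 : ∀ u : ℝ, pv P d (d ω) * pv P w (w ω) * u = P.E fun a => P.E fun b =>
            u * ((if d a = d ω then 1 else 0) * if w b = w ω then 1 else 0) := by
          intro u
          simp only [FP.E_mul]
          have : (P.E fun a => (if d a = d ω then (1 : ℝ) else 0) *
              P.E fun b => if w b = w ω then 1 else 0) = P.E fun a =>
                (P.E fun b => if w b = w ω then (1 : ℝ) else 0) * if d a = d ω then 1 else 0 :=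
            P.E_congr fun a _ => mul_comm _ _
          rw [this, FP.E_mul]
          unfold pv pb
          ring
        rw [mul_div_assoc, e1]
        refine P.E_congr fun a _ => P.E_congr fun b _ => ?_
        by_cases ha : d a = d ω
        · by_cases hb : w b = w ω
          · simp [ha, hb, div_eq_mul_inv]
          · simp [hb, Ne.symm hb]
        · simp [ha, Ne.symm ha]
      rw [e, E_swap]
      refine le_trans (P.E_mono fun a _ => ?_) h1
      rw [E_swap]
      refine P.E_mono fun b _ => ?_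
      rw [P.E_mul]
      refine mul_le_of_le_one_right (h0 _ _).le ?_
      refine le_trans (le_of_eq ?_) (P.class_sum (Setoid.ker fun ω => (d ω, w ω))
        (fun ω => (d ω, w ω) = (d a, w b)) fun x _ y _ h1 h2 => h1.trans h2.symm)
      exact P.E_congr fun ω _ => by by_cases h : (d ω, w ω) = (d a, w b) <;> simp [h])
  have e2 : P.E (fun ω => -Real.log (pv P d (d ω) * pv P w (w ω) * h (d ω) (w ω))) =
      hh P d + hh P w - P.E fun ω => Real.log (h (d ω) (w ω)) := by
    rw [hh_eq, hh_eq, ← P.E_add, ← P.E_sub]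
    refine P.E_congr fun ω hω => ?_
    have a1 := pv_pos P d hω
    have a2 := pv_pos P w hω
    rw [Real.log_mul (mul_pos a1 a2).ne' (h0 _ _).ne', Real.log_mul a1.ne' a2.ne']
    ring
  rw [e2] at key
  unfold ch hh at *
  linarith

/-- Density of the graph `G` for the product of the marginals. -/
noncomputable def den (P : FP Ω) (d : Ω → α) (w : Ω → β) (G : α → β → Prop) : ℝ :=
  P.E fun a => pb P fun b => G (d a) (w b)

theorem den_pos (P : FP Ω) (d : Ω → α) (w : Ω → β) (G : α → β → Prop)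
    (h : ∃ ω ∈ P.S, G (d ω) (w ω)) : 0 < den P d w G := by
  obtain ⟨ω, h1, h2⟩ := h
  exact Finset.sum_pos' (fun a ha => mul_nonneg (P.pos a ha).le (pb_nonneg _ _))
    ⟨ω, h1, mul_pos (P.pos ω h1) (pb_pos P ⟨ω, h1, h2⟩)⟩

/-- A likely graph is dense when the information is small. -/
theorem den_ge (P : FP Ω) (d : Ω → α) (w : Ω → β) (G : α → β → Prop) {p η : ℝ} (hp : 0 < p)
    (h : p ≤ pb P fun ω => G (d ω) (w ω)) (hη : hh P d - ch P d w ≤ η) :
    Real.exp (-((η + lg) / p)) ≤ den P d w G := by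
  classical
  have h0 := den_pos P d w G (pb_ex P (hp.trans_le h))
  have h1 : den P d w G ≤ 1 := (P.E_mono fun a _ => pb_le_one _ _).trans (P.E_const 1).le
  have key := gibbs2 P d w (fun x y => if G x y then 1 / (2 * den P d w G) else 1 / 2)
    (fun x y => by split_ifs <;> positivity) (by
      have a1 : P.E (fun a => P.E fun b => if G (d a) (w b) then 1 / (2 * den P d w G) else 1 / 2)
          ≤ P.E fun a => 1 / 2 + 1 / (2 * den P d w G) * pb P fun b => G (d a) (w b) := by
        refine P.E_mono fun a _ => ?_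
        unfold pb
        rw [← P.E_mul, ← P.E_const (1 / 2), ← P.E_add]
        refine P.E_mono fun b _ => ?_
        rw [P.E_const]
        split_ifs <;> norm_num
      rw [P.E_add, P.E_const, P.E_mul] at a1
      have a2 : 1 / (2 * den P d w G) * den P d w G = 1 / 2 := by field_simp
      unfold den at a2
      unfold den at a1 ⊢
      linarith)
  have e : P.E (fun ω => Real.log (if G (d ω) (w ω) then 1 / (2 * den P d w G) else 1 / 2)) =
      -lg - pb P (fun ω => G (d ω) (w ω)) * Real.log (den P d w G) := by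
    rw [mul_comm (pb _ _)]
    unfold pb
    rw [← P.E_mul, ← P.E_const (-lg), ← P.E_sub]
    refine P.E_congr fun ω _ => ?_
    unfold lg
    split_ifs
    · rw [one_div, Real.log_inv, Real.log_mul two_ne_zero h0.ne']; ring
    · rw [one_div, Real.log_inv]; ring
  rw [e] at key
  have h2 : Real.log (den P d w G) ≤ 0 := Real.log_nonpos h0.le h1
  rw [← Real.le_log_iff_exp_le h0, neg_le, le_div_iff₀ hp]
  nlinarith

/-- All four entries satisfy `Γ`. -/
def In4 (Γ : α → Prop) (x : α × α × α × α) : Prop := Γ x.1 ∧ Γ x.2.1 ∧ Γ x.2.2.1 ∧ Γ x.2.2.2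

open Classical in
/-- The potential of dependent random choice. -/
noncomputable def pot (P : FP Ω) (Q : FP Ω') (d : Ω → α) (G : α → Ω' → Prop)
    (Bad : Finset (α × α × α × α)) (s : ℕ) (Γ : α → Prop) : ℝ :=
  P.E (fun a => if Γ (d a) then pb Q (G (d a)) ^ s else 0) -
    ∑ x ∈ Bad, if In4 Γ x then pb Q (fun b => In4 (fun y => G y b) x) ^ s else 0

theorem pot_succ (P : FP Ω) (Q : FP Ω') (d : Ω → α) (G : α → Ω' → Prop)
    (Bad : Finset (α × α × α × α)) (s : ℕ) (Γ : α → Prop) :
    pot P Q d G Bad (s + 1) Γ = Q.E fun b => pot P Q d G Bad s fun y => Γ y ∧ G y b := by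
  unfold pot
  rw [Q.E_sub, Q.E_sum, ← E_swap]
  congr 1
  · refine P.E_congr fun a _ => ?_
    by_cases h : Γ (d a)
    · simp only [h, if_true, true_and, pow_succ]
      conv_lhs => arg 2; unfold pb
      rw [← Q.E_mul]
      exact Q.E_congr fun b _ => by by_cases h2 : G (d a) b <;> simp [h, h2]
    · simp only [h, if_false]
      exact ((Q.E_congr fun b _ => if_neg fun h2 => h h2.1).trans (Q.E_const 0)).symm
  · refine Finset.sum_congr rfl fun x _ => ?_
    by_cases h : In4 Γ x
    · simp only [h, if_true, pow_succ]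
      conv_lhs => arg 2; unfold pb
      rw [← Q.E_mul]
      refine Q.E_congr fun b _ => ?_
      have : In4 (fun y => Γ y ∧ G y b) x ↔ In4 (fun y => G y b) x := by
        unfold In4 at *; tauto
      by_cases h2 : In4 (fun y => G y b) x
      · simp [h2, this]
      · simp [h2, this]
    · simp only [h, if_false]
      refine ((Q.E_congr fun b _ => if_neg ?_).trans (Q.E_const 0)).symm
      unfold In4 at *; tauto

theorem pot_ex (P : FP Ω) (Q : FP Ω') (d : Ω → α) (G : α → Ω' → Prop)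
    (Bad : Finset (α × α × α × α)) (s : ℕ) :
    ∀ Γ : α → Prop, ∃ Γ' : α → Prop, pot P Q d G Bad s Γ ≤ pot P Q d G Bad 0 Γ' := by
  induction s with
  | zero => exact fun Γ => ⟨Γ, le_rfl⟩
  | succ s ih =>
    intro Γ
    obtain ⟨b, -, hb⟩ := ex_ge Q fun b => pot P Q d G Bad s fun y => Γ y ∧ G y b
    obtain ⟨Γ', h⟩ := ih fun y => Γ y ∧ G y b
    exact ⟨Γ', by rw [pot_succ]; exact hb.trans h⟩

/-- Dependent random choice. -/
theorem drc (P : FP Ω) (Q : FP Ω') (d : Ω → α) (G : α → Ω' → Prop) (X : Finset α)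
    (hX : ∀ a ∈ P.S, d a ∈ X) (t : ℕ) {u δ : ℝ} (hu : 0 < u) (hδ : 0 ≤ δ)
    (h1 : 2 * u ≤ (P.E fun a => pb Q (G (d a))) ^ t) (h2 : (X.card : ℝ) ^ 4 * δ ^ t ≤ u) :
    ∃ Γ ⊆ X, u ≤ pb P (fun a => d a ∈ Γ) ∧ ∀ x₁ ∈ Γ, ∀ x₂ ∈ Γ, ∀ x₃ ∈ Γ, ∀ x₄ ∈ Γ,
      δ ≤ pb Q fun b => G x₁ b ∧ G x₂ b ∧ G x₃ b ∧ G x₄ b := by
  classical
  set Bad := (X ×ˢ X ×ˢ X ×ˢ X).filter fun x => pb Q (fun b => In4 (fun y => G y b) x) < δ
    with hBad
  obtain ⟨Γ, hΓ⟩ := pot_ex P Q d G Bad t fun _ => True
  have a1 : (P.E fun a => pb Q (G (d a))) ^ t ≤ P.E fun a => pb Q (G (d a)) ^ t :=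
    Real.pow_arith_mean_le_arith_mean_pow P.S P.p _ (fun a ha => (P.pos a ha).le) P.sum_one
      (fun a _ => pb_nonneg _ _) t
  have a2 : ∑ x ∈ Bad, pb Q (fun b => In4 (fun y => G y b) x) ^ t ≤ u := by
    refine le_trans (Finset.sum_le_card_nsmul _ _ (δ ^ t) fun x hx =>
      pow_le_pow_left₀ (pb_nonneg _ _) (Finset.mem_filter.1 hx).2.le t) ?_
    rw [nsmul_eq_mul]
    refine le_trans (mul_le_mul_of_nonneg_right ?_ (pow_nonneg hδ t)) h2
    have : Bad.card ≤ X.card ^ 4 := by
      refine (Finset.card_filter_le _ _).trans (le_of_eq ?_)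
      simp only [Finset.card_product]; ring
    exact_mod_cast this
  have a3 : u ≤ pot P Q d G Bad t fun _ => True := by
    unfold pot In4
    simp only [if_true, and_self]
    unfold In4 at a2
    linarith
  have a4 := a3.trans hΓ
  unfold pot at a4
  simp only [pow_zero] at a4
  have a5 : (P.E fun a => if Γ (d a) then (1 : ℝ) else 0) = pb P fun a => d a ∈ X.filter Γ :=
    P.E_congr fun a ha => by by_cases h : Γ (d a) <;> simp [h, hX a ha]
  have a6 : ∀ x ∈ Bad, (0 : ℝ) ≤ if In4 Γ x then 1 else 0 := fun x _ => by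
    split_ifs <;> norm_num
  rw [a5] at a4
  refine ⟨X.filter Γ, Finset.filter_subset _ _, by linarith [Finset.sum_nonneg a6], ?_⟩
  intro x₁ h₁ x₂ h₂ x₃ h₃ x₄ h₄
  by_contra hn
  rw [Finset.mem_filter] at h₁ h₂ h₃ h₄
  have a7 : (x₁, x₂, x₃, x₄) ∈ Bad := by
    simp only [hBad, Finset.mem_filter, Finset.mem_product]
    exact ⟨⟨h₁.1, h₂.1, h₃.1, h₄.1⟩, not_le.1 hn⟩
  have a8 := Finset.single_le_sum a6 a7
  rw [if_pos (show In4 Γ (x₁, x₂, x₃, x₄) from ⟨h₁.2, h₂.2, h₃.2, h₄.2⟩)] at a8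
  linarith [pb_le_one P fun a => d a ∈ X.filter Γ]

end Pool.Agent.MP_5168f5_an.H39F
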