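import Pool.Agent.MP_5168f5_an.H39F.Geo

/-! A dense graph of pairs near a set without long segments has an edge with a small value. -/

namespace Pool.Agent.MP_5168f5_an.H39F

open H19 H17S H17F H95F

variable {N : ℕ} {Ω : Type}

theorem abs_div_le {z : ℤ} {n a : ℕ} (hn : 1 ≤ n) (h : |z| ≤ a * n) : |(z : ℝ) / n| ≤ a := by
  have hn1 : (0 : ℝ) < n := by exact_mod_cast hn
  rw [abs_div, abs_of_pos hn1, div_le_iff₀ hn1]
  exact_mod_cast h

/-- The last step: a vertex with many neighbours near a line. -/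
theorem last {P : FP Ω} {w : Ω → D N} {x : D N} {U : Set (V N)} {n k K q j C : ℕ} {e ν : ℝ}
    {γ : V N} {E : Ω → Prop} (hL : Line2 U n q k e) (hq : 1 ≤ q) (hn : 1 ≤ n) (hk : 16 ≤ k)
    (hK : k ^ 4 ≤ K) (hj : 1 ≤ j) (hje : ((2 * C + 6 : ℕ) : ℝ) ≤ j * e) (hν : 1 ≤ ν)
    (hz : |x.1| ≤ n) (hg : ‖gR N x‖ ≤ k * n) (hγ : ‖γ‖ ≤ (K : ℝ) ^ C)
    (hE : (1 : ℝ) / (2 * k) * (1 / k) / 2 ≤ pb P E)
    (h : ∀ b ∈ P.S, E b → |(w b).1| ≤ 2 * n ∧ pv P (fun ω => (w ω).1) (w b).1 ≤ k / n ∧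
      (∃ u ∈ U, ‖MM n x (w b) - u‖ ≤ k) ∧ ‖gR N (w b) + ((w b).1 : ℝ) • γ‖ ≤ ν) :
    ∀ b ∈ P.S, E b → ‖MM n x (w b)‖ ≤ ν * (K : ℝ) ^ (C + 4 + j) := by
  have hk1 : (16 : ℝ) ≤ k := by exact_mod_cast hk
  have hn1 : (1 : ℝ) ≤ n := by exact_mod_cast hn
  have hkK : k ≤ K := (Nat.le_self_pow (by norm_num) k).trans hK
  have hK1 : (k : ℝ) ≤ K := by exact_mod_cast hkK
  have hK4 : (k : ℝ) ^ 4 ≤ K := by exact_mod_cast hK
  have hz1 : |(x.1 : ℝ) / n| ≤ 1 := by simpa using abs_div_le (a := 1) hn (by simpa using hz)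
  have hz2 : |(x.1 : ℝ)| ≤ n := by exact_mod_cast hz
  have e1 : ∀ b, MM n x (w b) = ((x.1 : ℝ) / n) • (gR N (w b) + ((w b).1 : ℝ) • γ) +
      (((w b).1 : ℝ) / n) • (gR N x - (x.1 : ℝ) • γ) := fun b => by
    unfold MM
    simp only [div_eq_mul_inv]
    module
  have e2 : ∀ b ∈ P.S, E b → ‖((x.1 : ℝ) / n) • (gR N (w b) + ((w b).1 : ℝ) • γ)‖ ≤ ν :=
    fun b hb hE => by
      rw [norm_smul, Real.norm_eq_abs]
      exact (mul_le_of_le_one_left (norm_nonneg _) hz1).trans (h b hb hE).2.2.2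
  have e3 : ∀ b ∈ P.S, E b → ∃ u ∈ U,
      ‖(((w b).1 : ℝ) / n) • (gR N x - (x.1 : ℝ) • γ) - u‖ ≤ k + ν := fun b hb hE => by
    obtain ⟨u, hu, h1⟩ := (h b hb hE).2.2.1
    refine ⟨u, hu, ?_⟩
    have e : (((w b).1 : ℝ) / n) • (gR N x - (x.1 : ℝ) • γ) - u = (MM n x (w b) - u) -
        ((x.1 : ℝ) / n) • (gR N (w b) + ((w b).1 : ℝ) • γ) := by rw [e1]; abel
    rw [e]
    exact (norm_sub_le _ _).trans (add_le_add h1 (e2 b hb hE))
  have p1 : (1 : ℝ) ≤ (K : ℝ) ^ C := one_le_pow₀ (by linarith)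
  have p2 : (K : ℝ) ≤ K ^ j := le_self_pow₀ (by linarith) (by omega)
  have p3 : 1 ≤ K ^ (C + 1) := Nat.one_le_pow _ _ (by omega)
  have a4 := short hL hq (gR N x - (x.1 : ℝ) • γ) P (fun ω => (w ω).1) E
    (A := 2 * K ^ (C + 1)) (μ := k + ν + (k + ν)) (L := (K : ℝ) ^ j) (m := k / n)
    (by omega) (by linarith) (by linarith) (by linarith) (by positivity) (by
      refine (norm_sub_le _ _).trans ?_
      rw [norm_smul, Real.norm_eq_abs]
      have b1 : |(x.1 : ℝ)| * ‖γ‖ ≤ n * (K : ℝ) ^ C :=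
        mul_le_mul hz2 hγ (norm_nonneg _) (by positivity)
      have b2 : (k : ℝ) * n ≤ K ^ C * K * n :=
        mul_le_mul_of_nonneg_right (by nlinarith) (by positivity)
      have b3 : (n : ℝ) * K ^ C ≤ K ^ C * K * n := by
        have : (0 : ℝ) ≤ n * K ^ C := by positivity
        nlinarith
      push_cast
      rw [pow_succ]
      linarith) hE (fun b hb hE => ⟨by
        refine (h b hb hE).1.trans (mul_le_mul_of_nonneg_right ?_ (by positivity))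
        have : 2 ≤ 2 * K ^ (C + 1) := by omega
        exact_mod_cast this, (h b hb hE).2.1⟩)
    (fun a ha b hb ga gb => by
      obtain ⟨u, hu, h1⟩ := e3 a ha ga
      obtain ⟨u', hu', h2⟩ := e3 b hb gb
      have := nr_pair hu hu' h1 h2
      rw [← sub_smul, ← sub_div] at this
      exact this) (by
      have b1 := rpow_neg_le (k := K) (i := 2 * C + 6) (j := j) (e := e) (by linarith) hje
      have b2 : 3 * ((2 * K ^ (C + 1) : ℕ) : ℝ) ^ 2 * (n * ((K : ℝ) ^ j) ^ (-e)) * (k / n) =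
          12 * K ^ (2 * C + 2) * k * ((K : ℝ) ^ j) ^ (-e) := by
        push_cast; field_simp; ring
      have b3 : (1 : ℝ) / (2 * k) * (1 / k) / 2 = 1 / (4 * k ^ 2) := by field_simp; norm_num
      have K0 : (0 : ℝ) < K := by linarith
      rw [b2, b3]
      refine lt_of_le_of_lt (mul_le_mul_of_nonneg_left b1 (by positivity)) ?_
      rw [← div_eq_mul_inv, div_lt_div_iff₀ (by positivity) (by positivity)]
      have b4 : (0 : ℝ) < K ^ (2 * C + 2) := by positivity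
      have b5 : (K : ℝ) ^ (2 * C + 6) = K ^ (2 * C + 2) * K ^ 4 := by ring
      have b6 : (48 : ℝ) * k ^ 3 < K ^ 4 := by
        have c1 : (K : ℝ) * 16 ^ 3 ≤ K * K ^ 3 :=
          mul_le_mul_of_nonneg_left (pow_le_pow_left₀ (by norm_num) (by linarith) 3) K0.le
        have c2 : (k : ℝ) ^ 3 ≤ k ^ 4 := pow_le_pow_right₀ (by linarith) (by norm_num)
        nlinarith
      rw [b5]
      nlinarith)
  intro b hb hE
  rw [e1]
  refine (norm_add_le _ _).trans ?_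
  have c1 := e2 b hb hE
  have c2 : ‖(((w b).1 : ℝ) / n) • (gR N x - (x.1 : ℝ) • γ)‖ ≤ 2 * ‖gR N x - (x.1 : ℝ) • γ‖ := by
    rw [norm_smul, Real.norm_eq_abs]
    refine mul_le_mul_of_nonneg_right ?_ (norm_nonneg _)
    simpa using abs_div_le (a := 2) hn (by simpa using (h b hb hE).1)
  have c3 : (k : ℝ) + ν + (k + ν) ≤ 4 * (K * ν) := by nlinarith
  have c4 : ((2 * K ^ (C + 1) : ℕ) : ℝ) * (k + ν + (k + ν)) * (K : ℝ) ^ j ≤
      8 * (ν * K ^ (C + 2 + j)) := by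
    refine le_trans (mul_le_mul_of_nonneg_right (mul_le_mul_of_nonneg_left c3 (by positivity))
      (by positivity)) (le_of_eq ?_)
    push_cast; ring
  have c5 : (1 : ℝ) ≤ (K : ℝ) ^ (C + 2 + j) := one_le_pow₀ (by linarith)
  have c6 : ν ≤ ν * K ^ (C + 2 + j) := le_mul_of_one_le_right (by linarith) c5
  have c7 : ν * (K : ℝ) ^ (C + 4 + j) = ν * K ^ (C + 2 + j) * (K * K) := by ring
  have c8 : (256 : ℝ) ≤ K * K := by nlinarith
  rw [c7]
  nlinarith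

/-- The case in which the vector part of `d` vanishes. -/
theorem flat {P : FP Ω} {d w : Ω → D N} {U : Set (V N)} {n k q j : ℕ} {e : ℝ}
    {G : D N → D N → Prop} (hL : Line2 U n q k e) (hq : 1 ≤ q) (hb : Bnd P d w n k) (hk : 16 ≤ k)
    (hn : 1 ≤ n) (hj : 1 ≤ j) (hje : (6 : ℝ) ≤ j * e) (h0 : ∀ ω ∈ P.S, (d ω).2 = 0)
    (hG : ∀ a ∈ P.S, ∀ b ∈ P.S, G (d a) (w b) → (∃ u ∈ U, ‖MM n (d a) (w b) - u‖ ≤ k) ∧
      pv P (fun ω => (d ω).1) (d a).1 ≤ k / n) (hd : 1 ≤ k * den P d w G) :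
    ∃ a ∈ P.S, ∃ b ∈ P.S, G (d a) (w b) ∧ ‖MM n (d a) (w b)‖ ≤ (k : ℝ) ^ (4 + j) := by
  have hk1 : (16 : ℝ) ≤ k := by exact_mod_cast hk
  have hn1 : (1 : ℝ) ≤ n := by exact_mod_cast hn
  have e0 : den P d w G = P.E fun b => pb P fun a => G (d a) (w b) := E_swap P P _
  obtain ⟨b, hb', h1⟩ := ex_ge P fun b => pb P fun a => G (d a) (w b)
  have h2 : (1 : ℝ) / k ≤ pb P fun a => G (d a) (w b) := by
    rw [div_le_iff₀' (by positivity)]
    exact hd.trans (mul_le_mul_of_nonneg_left (e0.le.trans h1) (by positivity))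
  have e1 : ∀ a ∈ P.S, MM n (d a) (w b) = (((d a).1 : ℝ) / n) • gR N (w b) := fun a ha => by
    have : gR N (d a) = 0 := by funext i; simp [gR, h0 a ha]
    simp [MM, this]
  have p2 : (k : ℝ) ≤ k ^ j := le_self_pow₀ (by linarith) (by omega)
  have a4 := short hL hq (gR N (w b)) P (fun ω => (d ω).1) _ (A := k) (μ := k + k)
    (L := (k : ℝ) ^ j) (m := k / n) (by omega) (by linarith) (by linarith) p2 (by positivity)
    (hb.p b hb') h2 (fun a ha g => ⟨by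
      refine (hb.z a ha).trans (le_mul_of_one_le_left (by positivity) ?_)
      exact_mod_cast (by omega : 1 ≤ k), (hG a ha b hb' g).2⟩)
    (fun a ha a' ha' g g' => by
      obtain ⟨u, hu, h3⟩ := (hG a ha b hb' g).1
      obtain ⟨u', hu', h4⟩ := (hG a' ha' b hb' g').1
      have := nr_pair hu hu' h3 h4
      rw [e1 a ha, e1 a' ha', ← sub_smul, ← sub_div] at this
      exact this) (by
      have b1 := rpow_neg_le (k := k) (i := 6) (j := j) (e := e) (by linarith)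
        (by exact_mod_cast hje)
      have b2 : 3 * (k : ℝ) ^ 2 * (n * ((k : ℝ) ^ j) ^ (-e)) * (k / n) =
          3 * k ^ 3 * ((k : ℝ) ^ j) ^ (-e) := by field_simp
      rw [b2]
      refine lt_of_le_of_lt (mul_le_mul_of_nonneg_left b1 (by positivity)) ?_
      rw [← div_eq_mul_inv, div_lt_div_iff₀ (by positivity) (by positivity)]
      have b3 : (0 : ℝ) < k ^ 4 := by positivity
      have b4 : (k : ℝ) ^ 6 = k ^ 4 * (k * k) := by ring
      have b5 : (256 : ℝ) ≤ k * k := by nlinarith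
      nlinarith)
  obtain ⟨a, ha, g⟩ := pb_ex P (lt_of_lt_of_le (by positivity) h2)
  refine ⟨a, ha, b, hb', g, ?_⟩
  rw [e1 a ha, norm_smul, Real.norm_eq_abs]
  have hz1 : |((d a).1 : ℝ) / n| ≤ 1 := by
    simpa using abs_div_le (a := 1) hn (by simpa using hb.z a ha)
  refine ((mul_le_of_le_one_left (norm_nonneg _) hz1).trans a4).trans ?_
  have b3 : (0 : ℝ) < k ^ 2 * k ^ j := by positivity
  have b4 : (k : ℝ) ^ (4 + j) = k ^ 2 * k ^ j * (k * k) := by ring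
  have b5 : (256 : ℝ) ≤ k * k := by nlinarith
  nlinarith

theorem comb (hS : SetT) (hL : SLine2) (N : ℕ) (e : ℝ) (he : 0 < e) :
    ∃ (q h n₀ : ℕ) (c : ℝ), 0 < c ∧ 1 ≤ h ∧ ∀ (n k : ℕ) (U : Set (V N)) (Ω : Type) (P : FP Ω)
      (d w : Ω → D N) (G : D N → D N → Prop), n₀ ≤ n → 16 ≤ k → k ^ h ≤ n → n ≤ k ^ (2 * h) →
      Line U n q k e → Bnd P d w n k →
      (∀ a ∈ P.S, ∀ b ∈ P.S, G (d a) (w b) → (∃ u ∈ U, ‖MM n (d a) (w b) - u‖ ≤ k) ∧
        pv P (fun ω => (d ω).1) (d a).1 ≤ k / n ∧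
        (pv P (fun ω => (w ω).1) (w b).1 ≤ k / n ∨ ∀ ω ∈ P.S, (d ω).2 = 0)) →
      1 ≤ k * den P d w G ^ (8 * (h + 1) * (N + 1) + 2) →
      ∃ a ∈ P.S, ∃ b ∈ P.S, G (d a) (w b) ∧ ‖MM n (d a) (w b)‖ ≤ n * (n : ℝ) ^ (-c) := by
  classical
  obtain ⟨q, C, n₀, c₁, κ, hc₁, hκ, hS⟩ := hS N e he
  obtain ⟨j, hj⟩ := exists_nat_gt (((2 * C + 6 : ℕ) : ℝ) / e)
  have hje : ((2 * C + 6 : ℕ) : ℝ) ≤ j * e := ((div_lt_iff₀ he).1 hj).le
  have hje' : (6 : ℝ) ≤ j * e := le_trans (by exact_mod_cast (by omega : 6 ≤ 2 * C + 6)) hje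
  have hj1 : 1 ≤ j := by
    rcases Nat.eq_zero_or_pos j with rfl | h
    · norm_num at hje'
    · exact h
  set s := N * (5 + j) + 4 with hs
  set c := min c₁ 1 / 2 with hc
  have hc0 : 0 < c := half_pos (lt_min hc₁ one_pos)
  obtain ⟨h, hh⟩ := exists_nat_gt ((s : ℝ) / κ + ((s * (C + 4 + j) : ℕ) : ℝ) / c)
  have t1 : (0 : ℝ) ≤ (s : ℝ) / κ := by positivity
  have t2 : (0 : ℝ) ≤ ((s * (C + 4 + j) : ℕ) : ℝ) / c := by positivity
  have hh1 : (s : ℝ) ≤ h * κ := (div_le_iff₀ hκ).1 (by linarith)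
  have hh2 : ((s * (C + 4 + j) : ℕ) : ℝ) ≤ h * c := (div_le_iff₀ hc0).1 (by linarith)
  have hh0 : 1 ≤ h := by
    have : (0 : ℝ) < h := by linarith
    exact_mod_cast this
  refine ⟨q + 4, h, n₀, c, hc0, hh0, ?_⟩
  intro n k U Ω P d w G hn₀ hk hn hn' hLine hb hG hd
  have hn1 : 1 ≤ n := (Nat.one_le_pow _ _ (by omega)).trans hn
  have hnR : (1 : ℝ) ≤ n := by exact_mod_cast hn1
  have hkR : (16 : ℝ) ≤ k := by exact_mod_cast hk
  have L2 := hL N U n (q + 4) k e hn1 hLine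
  have hK4 : k ^ 4 ≤ k ^ s := Nat.pow_le_pow_right (by omega) (by omega)
  have hkK : k ≤ k ^ s := Nat.le_self_pow (by omega) k
  have hkK' : (k : ℝ) ≤ (k ^ s : ℕ) := by exact_mod_cast hkK
  have hν : (1 : ℝ) ≤ n * (n : ℝ) ^ (-(2 * c)) := by
    have a1 : (n : ℝ) ^ (-1 : ℝ) ≤ (n : ℝ) ^ (-(2 * c)) :=
      Real.rpow_le_rpow_of_exponent_le hnR (by have := min_le_right c₁ 1; linarith)
    rw [Real.rpow_neg_one] at a1
    have a2 := mul_le_mul_of_nonneg_left a1 (by linarith : (0 : ℝ) ≤ n)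
    rwa [mul_inv_cancel₀ (by linarith)] at a2
  have hfin : n * (n : ℝ) ^ (-(2 * c)) * ((k ^ s : ℕ) : ℝ) ^ (C + 4 + j) ≤ n * (n : ℝ) ^ (-c) := by
    have a1 := pow_le_rpow (by omega : 1 ≤ k) hn hc0.le hh2
    rw [pow_mul] at a1
    have a2 : (n : ℝ) ^ (-c) = (n : ℝ) ^ (-(2 * c)) * (n : ℝ) ^ c := by
      rw [← Real.rpow_add (by linarith)]; ring_nf
    rw [a2, ← mul_assoc, Nat.cast_pow]
    exact mul_le_mul_of_nonneg_left a1 (by linarith)
  by_cases h0 : ∀ ω ∈ P.S, (d ω).2 = 0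
  · have a1 : den P d w G ≤ 1 := (P.E_mono fun a _ => pb_le_one _ _).trans (P.E_const 1).le
    have a2 : 0 ≤ den P d w G := P.E_nonneg fun a _ => pb_nonneg _ _
    obtain ⟨a, ha, b, hb', g, h1⟩ := flat L2 (by omega) hb hk hn1 hj1 hje' h0
      (fun a ha b hb' g => ⟨(hG a ha b hb' g).1, (hG a ha b hb' g).2.1⟩)
      (hd.trans (mul_le_mul_of_nonneg_left (pow_le_of_le_one a2 a1 (by omega)) (by positivity)))
    refine ⟨a, ha, b, hb', g, h1.trans (le_trans ?_ hfin)⟩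
    refine le_trans ?_ (le_mul_of_one_le_left (by positivity) hν)
    exact (pow_le_pow_left₀ (by positivity) hkK' _).trans
      (pow_le_pow_right₀ (by linarith) (by omega))
  obtain ⟨Γ, hΓ, T, g1, g2, g3, g4⟩ := gam L2 (by omega) hb hk hn1 hn' hj1 hje'
    (fun a ha b hb' g => ⟨(hG a ha b hb' g).1, (hG a ha b hb' g).2.2.resolve_right h0⟩) hd
  obtain ⟨a₀, ha₀, hE⟩ := wide P (fun a => d a ∈ Γ) (fun a b => G (d a) (w b)) (by positivity)
    (by positivity) g1 fun a _ ha => g2 _ ha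
  set E := fun b => G (d a₀) (w b) ∧
    (1 : ℝ) / (2 * k) * (1 / k) / 2 ≤ pb P fun a => d a ∈ Γ ∧ G (d a) (w b) with hEd
  have hv : ∀ x ∈ Γ, ∃ a ∈ P.S, d a = x := fun x hx => Finset.mem_image.1 (hΓ hx)
  have hW : ∀ v ∈ (P.S.filter E).image w, ∃ b ∈ P.S, E b ∧ w b = v := fun v hv => by
    obtain ⟨b, h1, h2⟩ := Finset.mem_image.1 hv
    exact ⟨b, (Finset.mem_filter.1 h1).1, (Finset.mem_filter.1 h1).2, h2⟩
  have hkn : (k : ℝ) * n ≤ (k ^ s : ℕ) * n := mul_le_mul_of_nonneg_right hkK' (by linarith)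
  have hKκ : ((k ^ s : ℕ) : ℝ) ≤ (n : ℝ) ^ κ := by
    rw [Nat.cast_pow]; exact pow_le_rpow (by omega) hn hκ.le hh1
  obtain ⟨γ, hγ, hγ'⟩ := hS n (k ^ s) U Γ T ((P.S.filter E).image w) hn₀ (by omega) hKκ
    (hLine.mono (by omega) (hkK'.trans hKκ))
    (g3.trans (Nat.mul_le_mul_right _ (Nat.pow_le_pow_right (by omega) (by omega)))) g4
    (fun x hx => by obtain ⟨a, ha, rfl⟩ := hv x hx; exact hb.z a ha)
    (fun x hx => by obtain ⟨a, ha, rfl⟩ := hv x hx; exact (hb.g a ha).trans hkn)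
    { pb := fun v hv => by obtain ⟨b, h1, -, rfl⟩ := hW v hv; exact (hb.p b h1).trans hkn
      rb := fun v hv => by
        obtain ⟨b, h1, -, rfl⟩ := hW v hv
        refine (hb.r b h1).trans (mul_le_mul_of_nonneg_right ?_ (by positivity))
        exact_mod_cast (by omega : 2 ≤ k ^ s)
      nb := fun v hv' => by
        obtain ⟨b, h1, h2, rfl⟩ := hW v hv'
        refine ⟨Γ.filter fun x => G x (w b), Finset.filter_subset _ _,
          many P (fun ω => (d ω).1) _ _ hn1 hk hK4 h2.2 fun a ha h3 =>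
            ⟨Finset.mem_image_of_mem Prod.fst (Finset.mem_filter.2 h3),
              (hG a ha b h1 h3.2).2.1⟩, fun x hx => ?_⟩
        rw [Finset.mem_filter] at hx
        obtain ⟨a, ha, rfl⟩ := hv x hx.1
        obtain ⟨u, hu, h3⟩ := (hG a ha b h1 hx.2).1
        exact ⟨u, hu, h3.trans hkK'⟩
      rd := many P (fun ω => (w ω).1) E _ hn1 hk hK4 hE fun b h1 h2 =>
        ⟨Finset.mem_image_of_mem Prod.fst
          (Finset.mem_image_of_mem w (Finset.mem_filter.2 ⟨h1, h2⟩)),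
          (hG a₀ ha₀ b h1 h2.1).2.2.resolve_right h0⟩ }
  have hl := last L2 (by omega) hn1 hk hK4 hj1 hje hν (hb.z a₀ ha₀) (hb.g a₀ ha₀) hγ hE
    fun b h1 h2 => ⟨hb.r b h1, (hG a₀ ha₀ b h1 h2.1).2.2.resolve_right h0, (hG a₀ ha₀ b h1 h2.1).1,
      (hγ' _ (Finset.mem_image_of_mem w (Finset.mem_filter.2 ⟨h1, h2⟩))).trans
        (mul_le_mul_of_nonneg_left (Real.rpow_le_rpow_of_exponent_le hnR
          (by have := min_le_left c₁ 1; linarith)) (by linarith))⟩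
  obtain ⟨b, h1, h2⟩ := pb_ex P (lt_of_lt_of_le (by positivity) hE)
  exact ⟨a₀, ha₀, b, h1, h2.1, (hl b h1 h2).trans hfin⟩

end Pool.Agent.MP_5168f5_an.H39F
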