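import Pool.Agent.MP_5168f5_an.H39F.Kit
import Pool.Agent.MP_5168f5_an.H95F.Spec

/-! The set with small difference set, and the averaging steps. -/

namespace Pool.Agent.MP_5168f5_an.H39F

open H19 H17S H17F H95F

variable {N : ℕ} {Ω : Type}

/-- A vector whose multiples by a likely set of light scalars are near a level is short. -/
theorem short {U : Set (V N)} {n q q' A : ℕ} {L₀ e μ L m β : ℝ} (h : Line2 U n q L₀ e)
    (hq : q' ≤ q) (v : V N) (P : FP Ω) (X : Ω → ℤ) (E : Ω → Prop) (hA : 1 ≤ A) (hμ : 1 ≤ μ)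
    (hL : 1 ≤ L) (hL0 : L₀ ≤ L) (hm : 0 ≤ m) (hv : ‖v‖ ≤ A * n) (hE : β ≤ pb P E)
    (hX : ∀ ω ∈ P.S, E ω → |X ω| ≤ A * n ∧ pv P X (X ω) ≤ m)
    (hnr : ∀ a ∈ P.S, ∀ b ∈ P.S, E a → E b → Nr U q' μ ((((X a : ℝ) - X b) / n) • v))
    (hnum : 3 * A ^ 2 * (n * L ^ (-e)) * m < β) : ‖v‖ ≤ A * μ * L := by
  classical
  by_contra hn
  have h1 := h q' hq A v μ L ((P.S.filter E).image X) hA hμ hL hL0 (not_le.1 hn).le hv
    (fun t ht => by
      obtain ⟨a, ha, rfl⟩ := Finset.mem_image.1 ht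
      exact (hX a (Finset.mem_filter.1 ha).1 (Finset.mem_filter.1 ha).2).1)
    (fun t ht t' ht' => by
      obtain ⟨a, ha, rfl⟩ := Finset.mem_image.1 ht
      obtain ⟨b, hb, rfl⟩ := Finset.mem_image.1 ht'
      rw [Finset.mem_filter] at ha hb
      exact hnr a ha.1 b hb.1 ha.2 hb.2)
  have h2 := count P X E ((P.S.filter E).image X) hm fun ω hω hE =>
    ⟨Finset.mem_image_of_mem X (Finset.mem_filter.2 ⟨hω, hE⟩), (hX ω hω hE).2⟩
  have h3 := mul_le_mul_of_nonneg_right h1 hm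
  linarith

/-- A set whose fibres over the first coordinate have small diameter is small. -/
theorem card_diff (S : Finset (D N)) (B F : ℕ) (h1 : ∀ x ∈ S, |x.1| ≤ B)
    (h2 : ∀ x ∈ S, ∀ y ∈ S, x.1 = y.1 → ‖gR N x - gR N y‖ ≤ F) :
    S.card ≤ (2 * F + 1) ^ N * (2 * B + 1) := by
  classical
  have h3 : (S.image Prod.fst).card ≤ 2 * B + 1 := by
    have : S.image Prod.fst ⊆ Finset.Icc (-(B : ℤ)) B := fun z hz => by
      obtain ⟨x, hx, rfl⟩ := Finset.mem_image.1 hz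
      exact Finset.mem_Icc.2 (abs_le.1 (h1 x hx))
    refine (Finset.card_le_card this).trans (le_of_eq ?_)
    rw [Int.card_Icc]; omega
  refine le_trans (Finset.card_le_mul_card_image (f := Prod.fst) S ((2 * F + 1) ^ N) ?_)
    (Nat.mul_le_mul_left _ h3)
  intro z hz
  obtain ⟨y, hy, rfl⟩ := Finset.mem_image.1 hz
  have h4 : (Fintype.piFinset fun i : Fin N => Finset.Icc (y.2 i - F) (y.2 i + F)).card =
      (2 * F + 1) ^ N := by
    rw [Fintype.card_piFinset]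
    have : ∀ i : Fin N, (Finset.Icc (y.2 i - F) (y.2 i + F)).card = 2 * F + 1 := fun i => by
      rw [Int.card_Icc]; omega
    simp [this]
  rw [← h4]
  refine Finset.card_le_card_of_injOn Prod.snd (fun x hx => ?_) fun x hx x' hx' e => ?_
  · rw [Finset.mem_coe, Finset.mem_filter] at hx
    rw [Finset.mem_coe, Fintype.mem_piFinset]
    intro i
    have h5 := (norm_le_pi_norm (gR N x - gR N y) i).trans (h2 x hx.1 y hy hx.2)
    have h6 : |((x.2 i - y.2 i : ℤ) : ℝ)| ≤ F := by simpa [gR] using h5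
    have h7 : |x.2 i - y.2 i| ≤ F := by exact_mod_cast h6
    rw [Finset.mem_Icc]
    rw [abs_le] at h7
    omega
  · rw [Finset.mem_coe, Finset.mem_filter] at hx hx'
    exact Prod.ext (hx.2.trans hx'.2.symm) e

theorem rpow_neg_le {k e : ℝ} {i j : ℕ} (hk : 1 ≤ k) (h : (i : ℝ) ≤ j * e) :
    (k ^ j) ^ (-e) ≤ (k ^ i)⁻¹ := by
  rw [← Real.rpow_natCast, ← Real.rpow_natCast, ← Real.rpow_mul (by linarith),
    ← Real.rpow_neg (by linarith)]
  exact Real.rpow_le_rpow_of_exponent_le hk (by linarith)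

theorem pow_le_rpow {k n h i : ℕ} {x : ℝ} (hk : 1 ≤ k) (hn : k ^ h ≤ n) (hx : 0 ≤ x)
    (hi : (i : ℝ) ≤ h * x) : (k : ℝ) ^ i ≤ (n : ℝ) ^ x := by
  have h1 : (1 : ℝ) ≤ k := by exact_mod_cast hk
  have h2 : (k : ℝ) ^ h ≤ n := by exact_mod_cast hn
  refine le_trans ?_ (Real.rpow_le_rpow (by positivity) h2 hx)
  rw [← Real.rpow_natCast, ← Real.rpow_natCast, ← Real.rpow_mul (by linarith)]
  exact Real.rpow_le_rpow_of_exponent_le h1 hi

/-- Bounds on the support. -/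
structure Bnd (P : FP Ω) (d w : Ω → D N) (n k : ℕ) : Prop where
  z : ∀ ω ∈ P.S, |(d ω).1| ≤ n
  r : ∀ ω ∈ P.S, |(w ω).1| ≤ 2 * n
  g : ∀ ω ∈ P.S, ‖gR N (d ω)‖ ≤ k * n
  p : ∀ ω ∈ P.S, ‖gR N (w ω)‖ ≤ k * n

theorem card_val {P : FP Ω} {d w : Ω → D N} {n k h : ℕ} (hb : Bnd P d w n k) (hk : 16 ≤ k)
    (hn : 1 ≤ n) (hn' : n ≤ k ^ (2 * h)) :
    ((P.S.image d).card : ℝ) ^ 4 * (1 / k) ^ (8 * (h + 1) * (N + 1) + 2) ≤ 1 / (2 * k) := by
  have h1 := card_diff (P.S.image d) n (2 * (k * n)) (fun x hx => by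
    obtain ⟨a, ha, rfl⟩ := Finset.mem_image.1 hx
    exact hb.z a ha) fun x hx y hy _ => by
      obtain ⟨a, ha, rfl⟩ := Finset.mem_image.1 hx
      obtain ⟨b, hb', rfl⟩ := Finset.mem_image.1 hy
      refine (norm_sub_le _ _).trans ?_
      have := hb.g a ha
      have := hb.g b hb'
      push_cast
      linarith
  have h2 : 2 * (2 * (k * n)) + 1 ≤ k ^ (2 * h + 2) := by
    have : k ^ (2 * h + 2) = k * k * k ^ (2 * h) := by ring
    have h3 : k * k * n ≤ k * k * k ^ (2 * h) := Nat.mul_le_mul_left _ hn'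
    have h4 : 16 * (k * n) ≤ k * (k * n) := Nat.mul_le_mul_right _ hk
    have h5 : 1 ≤ k * n := Nat.mul_pos (by omega) hn
    nlinarith
  have h3 : 2 * n + 1 ≤ k ^ (2 * h + 2) := by
    have : 16 * n ≤ k * n := Nat.mul_le_mul_right _ hk
    omega
  have h4 : (P.S.image d).card ≤ (k ^ (2 * h + 2)) ^ (N + 1) := by
    rw [pow_succ]
    exact h1.trans (Nat.mul_le_mul (Nat.pow_le_pow_left h2 N) h3)
  have h5 : (P.S.image d).card ^ 4 * (2 * k) ≤ k ^ (8 * (h + 1) * (N + 1) + 2) := by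
    have e : k ^ (8 * (h + 1) * (N + 1) + 2) = ((k ^ (2 * h + 2)) ^ (N + 1)) ^ 4 * (k * k) := by
      ring
    rw [e]
    exact Nat.mul_le_mul (Nat.pow_le_pow_left h4 4) (Nat.mul_le_mul_right _ (by omega))
  have hk0 : (0 : ℝ) < k := by exact_mod_cast (by omega : 0 < k)
  rw [one_div, inv_pow, ← div_eq_mul_inv, div_le_div_iff₀ (by positivity) (by positivity),
    one_mul]
  exact_mod_cast h5

/-- A likely set of values of `d` with a small difference set. -/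
theorem gam {P : FP Ω} {d w : Ω → D N} {U : Set (V N)} {n k h q j : ℕ} {e : ℝ}
    {G : D N → D N → Prop} (hL : Line2 U n q k e) (hq : 4 ≤ q) (hb : Bnd P d w n k) (hk : 16 ≤ k)
    (hn : 1 ≤ n) (hn' : n ≤ k ^ (2 * h)) (hj : 1 ≤ j) (hje : (6 : ℝ) ≤ j * e)
    (hG : ∀ a ∈ P.S, ∀ b ∈ P.S, G (d a) (w b) → (∃ u ∈ U, ‖MM n (d a) (w b) - u‖ ≤ k) ∧
      pv P (fun ω => (w ω).1) (w b).1 ≤ k / n)
    (hd : 1 ≤ k * den P d w G ^ (8 * (h + 1) * (N + 1) + 2)) :
    ∃ Γ ⊆ P.S.image d, ∃ T : Finset (D N), (1 : ℝ) / (2 * k) ≤ pb P (fun a => d a ∈ Γ) ∧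
      (∀ x ∈ Γ, (1 : ℝ) / k ≤ pb P fun b => G x (w b)) ∧ T.card ≤ k ^ (N * (5 + j) + 1) * n ∧
      ∀ a ∈ Γ, ∀ b ∈ Γ, a - b ∈ T := by
  have hk1 : (16 : ℝ) ≤ k := by exact_mod_cast hk
  have hn1 : (1 : ℝ) ≤ n := by exact_mod_cast hn
  obtain ⟨Γ, hΓ, h1, h2⟩ := drc P P d (fun x b => G x (w b)) (P.S.image d)
    (fun a ha => Finset.mem_image_of_mem d ha) (8 * (h + 1) * (N + 1) + 2) (u := 1 / (2 * k))
    (δ := 1 / k) (by positivity) (by positivity) (by
      have : 2 * (1 / (2 * k)) = (1 : ℝ) / k := by field_simp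
      rw [this, div_le_iff₀' (by positivity)]
      exact hd) (card_val hb hk hn hn')
  have hv : ∀ x ∈ Γ, ∃ a ∈ P.S, d a = x := fun x hx => Finset.mem_image.1 (hΓ hx)
  refine ⟨Γ, hΓ, (Γ ×ˢ Γ).image fun x => x.1 - x.2, h1, fun x hx =>
    (h2 x hx x hx x hx x hx).trans (pb_mono P fun b _ hb => hb.1), ?_, fun a ha b hb =>
      Finset.mem_image.2 ⟨(a, b), Finset.mem_product.2 ⟨ha, hb⟩, rfl⟩⟩
  have h3 := card_diff ((Γ ×ˢ Γ).image fun x => x.1 - x.2) (2 * n) (k ^ (4 + j)) (fun x hx => by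
    obtain ⟨y, hy, rfl⟩ := Finset.mem_image.1 hx
    obtain ⟨a, ha, e1⟩ := hv _ (Finset.mem_product.1 hy).1
    obtain ⟨b, hb', e2⟩ := hv _ (Finset.mem_product.1 hy).2
    have a1 := abs_le.1 (hb.z a ha)
    have a2 := abs_le.1 (hb.z b hb')
    rw [Prod.fst_sub, ← e1, ← e2, abs_le]
    push_cast
    omega) fun x hx y hy hxy => by
      obtain ⟨⟨x₁, x₂⟩, hx', rfl⟩ := Finset.mem_image.1 hx
      obtain ⟨⟨x₃, x₄⟩, hy', rfl⟩ := Finset.mem_image.1 hy
      rw [Finset.mem_product] at hx' hy'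
      have a0 := h2 x₁ hx'.1 x₂ hx'.2 x₃ hy'.1 x₄ hy'.2
      obtain ⟨a₁, m₁, rfl⟩ := hv x₁ hx'.1
      obtain ⟨a₂, m₂, rfl⟩ := hv x₂ hx'.2
      obtain ⟨a₃, m₃, rfl⟩ := hv x₃ hy'.1
      obtain ⟨a₄, m₄, rfl⟩ := hv x₄ hy'.2
      simp only at hxy ⊢
      have a1 : ∀ b ∈ P.S, G (d a₁) (w b) ∧ G (d a₂) (w b) ∧ G (d a₃) (w b) ∧ G (d a₄) (w b) →
          Nr U (1 + 1) (k + k + (k + k))
            ((((w b).1 : ℝ) / n) • (gR N (d a₁ - d a₂) - gR N (d a₃ - d a₄))) := by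
        rintro b hb' ⟨g₁, g₂, g₃, g₄⟩
        obtain ⟨u₁, p₁, q₁⟩ := (hG a₁ m₁ b hb' g₁).1
        obtain ⟨u₂, p₂, q₂⟩ := (hG a₂ m₂ b hb' g₂).1
        obtain ⟨u₃, p₃, q₃⟩ := (hG a₃ m₃ b hb' g₃).1
        obtain ⟨u₄, p₄, q₄⟩ := (hG a₄ m₄ b hb' g₄).1
        have a2 := (nr_pair p₁ p₂ q₁ q₂).sub (nr_pair p₃ p₄ q₃ q₄)
        rw [← MM_sub, ← MM_sub] at a2
        have e : (((w b).1 : ℝ) / n) • (gR N (d a₁ - d a₂) - gR N (d a₃ - d a₄)) =
            MM n (d a₁ - d a₂) (w b) - MM n (d a₃ - d a₄) (w b) := by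
          unfold MM
          rw [hxy, smul_sub]
          abel
        rw [e]; exact a2
      have a3 : (k : ℝ) ≤ k ^ j := le_self_pow₀ (by linarith) (by omega)
      have a4 := short hL hq (gR N (d a₁ - d a₂) - gR N (d a₃ - d a₄)) P (fun ω => (w ω).1) _
        (A := 4 * k) (μ := k + k + (k + k) + (k + k + (k + k))) (L := k ^ j) (m := k / n)
        (by omega) (by linarith) (by linarith) a3 (by positivity) (by
          rw [map_sub, map_sub]
          have b1 := norm_sub_le (gR N (d a₁) - gR N (d a₂)) (gR N (d a₃) - gR N (d a₄))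
          have b2 := norm_sub_le (gR N (d a₁)) (gR N (d a₂))
          have b3 := norm_sub_le (gR N (d a₃)) (gR N (d a₄))
          have := hb.g a₁ m₁
          have := hb.g a₂ m₂
          have := hb.g a₃ m₃
          have := hb.g a₄ m₄
          push_cast
          linarith) a0 (fun b hb' g => ⟨by
            refine (hb.r b hb').trans ?_
            push_cast
            exact mul_le_mul_of_nonneg_right (by omega) (by positivity), (hG a₁ m₁ b hb' g.1).2⟩)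
        (fun a ha b hb' ga gb => by
          have := (a1 a ha ga).sub (a1 b hb' gb)
          rw [← sub_smul, ← sub_div] at this
          exact this) (by
          have b1 := rpow_neg_le (k := k) (i := 6) (j := j) (e := e) (by linarith)
            (by exact_mod_cast hje)
          have b2 : 3 * ((4 * k : ℕ) : ℝ) ^ 2 * (n * ((k : ℝ) ^ j) ^ (-e)) * (k / n) =
              48 * k ^ 3 * ((k : ℝ) ^ j) ^ (-e) := by
            push_cast; field_simp; ring
          rw [b2]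
          refine lt_of_le_of_lt (mul_le_mul_of_nonneg_left b1 (by positivity)) ?_
          rw [← div_eq_mul_inv, div_lt_div_iff₀ (by positivity) (by positivity)]
          have b3 : (0 : ℝ) < k ^ 4 := by positivity
          have b4 : (k : ℝ) ^ 6 = k ^ 4 * (k * k) := by ring
          have b5 : (256 : ℝ) ≤ k * k := by nlinarith
          nlinarith)
      refine a4.trans ?_
      push_cast
      have b3 : (0 : ℝ) < k ^ 2 * k ^ j := by positivity
      have b4 : (k : ℝ) ^ (4 + j) = k ^ 2 * k ^ j * (k * k) := by ring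
      have b5 : (256 : ℝ) ≤ k * k := by nlinarith
      nlinarith
  refine h3.trans ?_
  have h4 : 2 * k ^ (4 + j) + 1 ≤ k ^ (5 + j) := by
    have e : k ^ (5 + j) = k * k ^ (4 + j) := by ring
    have a1 : 16 * k ^ (4 + j) ≤ k * k ^ (4 + j) := Nat.mul_le_mul_right _ hk
    have a2 : 0 < k ^ (4 + j) := by positivity
    omega
  have h5 : 2 * (2 * n) + 1 ≤ k * n := by
    have : 16 * n ≤ k * n := Nat.mul_le_mul_right _ hk
    omega
  have e : k ^ (N * (5 + j) + 1) * n = (k ^ (5 + j)) ^ N * (k * n) := by ring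
  rw [e]
  exact Nat.mul_le_mul (Nat.pow_le_pow_left h4 N) h5

/-- One vertex has many neighbours that have many neighbours in `A`. -/
theorem wide (P : FP Ω) (A : Ω → Prop) (G : Ω → Ω → Prop) {u δ : ℝ} (hu0 : 0 ≤ u) (hδ : 0 ≤ δ)
    (hu : u ≤ pb P A) (h : ∀ a ∈ P.S, A a → δ ≤ pb P (G a)) :
    ∃ a₀ ∈ P.S, u * δ / 2 ≤ pb P fun b => G a₀ b ∧ u * δ / 2 ≤ pb P fun a => A a ∧ G a b := by
  classical
  have h1 : δ * pb P A ≤ P.E fun a => pb P fun b => A a ∧ G a b := by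
    conv_lhs => unfold pb
    rw [← P.E_mul]
    refine P.E_mono fun a ha => ?_
    by_cases hA : A a
    · simp only [hA, if_true, true_and, mul_one]; exact h a ha hA
    · simp only [hA, if_false, mul_zero]; exact pb_nonneg _ _
  have h2 : (P.E fun a => pb P fun b => A a ∧ G a b) ≤
      (P.E fun a => pb P fun b => G a b ∧ u * δ / 2 ≤ pb P fun a => A a ∧ G a b) +
        P.E fun a => pb P fun b => (A a ∧ G a b) ∧ ¬u * δ / 2 ≤ pb P fun a => A a ∧ G a b := by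
    rw [← P.E_add]
    exact P.E_mono fun a _ => pb_union P fun b _ hb => by tauto
  have h3 : (P.E fun a => pb P fun b =>
      (A a ∧ G a b) ∧ ¬u * δ / 2 ≤ pb P fun a => A a ∧ G a b) ≤ u * δ / 2 := by
    have e : (P.E fun a => pb P fun b => (A a ∧ G a b) ∧ ¬u * δ / 2 ≤ pb P fun a => A a ∧ G a b)
        = P.E fun b => pb P fun a => (A a ∧ G a b) ∧ ¬u * δ / 2 ≤ pb P fun a => A a ∧ G a b :=
      E_swap P P _
    rw [e]
    refine (P.E_mono fun b _ => ?_).trans (P.E_const _).le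
    by_cases hb : u * δ / 2 ≤ pb P fun a => A a ∧ G a b
    · by_contra hn
      obtain ⟨a, -, ha⟩ := pb_ex P (lt_of_le_of_lt (by positivity) (not_le.1 hn))
      exact ha.2 hb
    · exact (pb_mono P fun a _ ha => ha.1).trans (not_le.1 hb).le
  obtain ⟨a₀, h4, h5⟩ := ex_ge P fun a =>
    pb P fun b => G a b ∧ u * δ / 2 ≤ pb P fun a => A a ∧ G a b
  have h6 := mul_le_mul_of_nonneg_left hu hδ
  exact ⟨a₀, h4, by linarith⟩

/-- A likely event shows many light values. -/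
theorem many (P : FP Ω) (X : Ω → ℤ) (E : Ω → Prop) (T : Finset ℤ) {n k K : ℕ} (hn : 1 ≤ n)
    (hk : 16 ≤ k) (hK : k ^ 4 ≤ K) (hE : (1 : ℝ) / (2 * k) * (1 / k) / 2 ≤ pb P E)
    (h : ∀ ω ∈ P.S, E ω → X ω ∈ T ∧ pv P X (X ω) ≤ k / n) : n ≤ K * T.card := by
  have hk1 : (16 : ℝ) ≤ k := by exact_mod_cast hk
  have hn1 : (1 : ℝ) ≤ n := by exact_mod_cast hn
  have h1 := hE.trans (count P X E T (by positivity) h)
  have h2 : (n : ℝ) ≤ 4 * k ^ 3 * T.card := by
    have e1 : (1 : ℝ) / (2 * k) * (1 / k) / 2 = 1 / (4 * k ^ 2) := by field_simp; norm_num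
    rw [e1, ← mul_div_assoc, div_le_div_iff₀ (by positivity) (by positivity)] at h1
    linarith
  have h3 : (4 : ℝ) * k ^ 3 ≤ K := by
    have a1 : (k : ℝ) ^ 4 ≤ K := by exact_mod_cast hK
    have a2 : (0 : ℝ) < k ^ 3 := by positivity
    have a3 : (k : ℝ) ^ 4 = k ^ 3 * k := by ring
    nlinarith
  have h4 : (n : ℝ) ≤ K * T.card := h2.trans (mul_le_mul_of_nonneg_right h3 (by positivity))
  exact_mod_cast h4

end Pool.Agent.MP_5168f5_an.H39F
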